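import Pool.Agent.W646.PN.Stm

/-!
Project PN (helper646, MP_046d9d_an): all values between the polynomial numerical indices of two
isomorphic Banach spaces are taken.
-/

set_option autoImplicit false

namespace Pool.Agent.W15.PN

open Pool.Agent.W646.PN

section path

variable {X Y : Type} [NormedAddCommGroup X] [NormedSpace ℝ X] [NormedAddCommGroup Y]
  [NormedSpace ℝ Y]

/-- comparison constant -/
noncomputable def kap (L : X ≃L[ℝ] Y) : ℝ :=
  1 + ‖(L : X →L[ℝ] Y)‖ + ‖(L.symm : Y →L[ℝ] X)‖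

lemma one_le_kap (L : X ≃L[ℝ] Y) : 1 ≤ kap L := by
  have h1 := norm_nonneg (L : X →L[ℝ] Y)
  have h2 := norm_nonneg (L.symm : Y →L[ℝ] X)
  unfold kap
  linarith

lemma norm_L_le (L : X ≃L[ℝ] Y) (x : X) : ‖L x‖ ≤ kap L * ‖x‖ := by
  have h1 := norm_nonneg (L : X →L[ℝ] Y)
  have h2 := norm_nonneg (L.symm : Y →L[ℝ] X)
  have h3 := (L : X →L[ℝ] Y).le_opNorm x
  calc ‖L x‖ ≤ ‖(L : X →L[ℝ] Y)‖ * ‖x‖ := h3
    _ ≤ kap L * ‖x‖ := by
      apply mul_le_mul_of_nonneg_right _ (norm_nonneg _)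
      unfold kap
      linarith

lemma norm_le_L (L : X ≃L[ℝ] Y) (x : X) : ‖x‖ ≤ kap L * ‖L x‖ := by
  have h1 := norm_nonneg (L : X →L[ℝ] Y)
  have h2 := norm_nonneg (L.symm : Y →L[ℝ] X)
  have h3 := (L.symm : Y →L[ℝ] X).le_opNorm (L x)
  have h4 : (L.symm : Y →L[ℝ] X) (L x) = x := L.symm_apply_apply x
  rw [h4] at h3
  calc ‖x‖ ≤ ‖(L.symm : Y →L[ℝ] X)‖ * ‖L x‖ := h3
    _ ≤ kap L * ‖L x‖ := by
      apply mul_le_mul_of_nonneg_right _ (norm_nonneg _)
      unfold kap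
      linarith

/-- the embedding that defines the norm with parameter `t` -/
noncomputable def pathMap (L : X ≃L[ℝ] Y) (t : ℝ) : X →ₗ[ℝ] WithLp 1 (X × Y) where
  toFun x := WithLp.toLp 1 (|1 - t| • x, |t| • L x)
  map_add' x y := by
    rw [← WithLp.toLp_add, map_add]
    congr 1
    refine Prod.ext ?_ ?_
    · exact smul_add _ _ _
    · exact smul_add _ _ _
  map_smul' c x := by
    rw [RingHom.id_apply, ← WithLp.toLp_smul, map_smul]
    congr 1
    exact Prod.ext (smul_comm _ _ _) (smul_comm _ _ _)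

/-- The path of normed spaces -/
def Vt (_L : X ≃L[ℝ] Y) (_t : ℝ) : Type := X

instance (L : X ≃L[ℝ] Y) (t : ℝ) : AddCommGroup (Vt L t) := inferInstanceAs (AddCommGroup X)

instance (L : X ≃L[ℝ] Y) (t : ℝ) : Module ℝ (Vt L t) := inferInstanceAs (Module ℝ X)

instance [Nontrivial X] (L : X ≃L[ℝ] Y) (t : ℝ) : Nontrivial (Vt L t) :=
  inferInstanceAs (Nontrivial X)

/-- forget the norm -/
def toX (L : X ≃L[ℝ] Y) (t : ℝ) : Vt L t ≃ₗ[ℝ] X := LinearEquiv.refl ℝ X

lemma pathMap_norm (L : X ≃L[ℝ] Y) (t : ℝ) (x : X) :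
    ‖pathMap L t x‖ = |1 - t| * ‖x‖ + |t| * ‖L x‖ := by
  change ‖WithLp.toLp 1 (|1 - t| • x, |t| • L x)‖ = _
  rw [WithLp.prod_norm_eq_of_L1]
  change ‖|1 - t| • x‖ + ‖|t| • L x‖ = _
  rw [norm_smul, norm_smul, Real.norm_eq_abs, Real.norm_eq_abs, abs_abs, abs_abs]

lemma one_le_weights (t : ℝ) : 1 ≤ |1 - t| + |t| := by
  have h1 := le_abs_self (1 - t)
  have h2 := le_abs_self t
  linarith

lemma pathMap_ge (L : X ≃L[ℝ] Y) (t : ℝ) (x : X) : ‖x‖ ≤ kap L * ‖pathMap L t x‖ := by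
  rw [pathMap_norm]
  have h1 := one_le_weights t
  have h2 := norm_le_L L x
  have h3 := one_le_kap L
  have h4 := norm_nonneg x
  have h5 := abs_nonneg (1 - t)
  have h6 := abs_nonneg t
  calc ‖x‖ = 1 * ‖x‖ := (one_mul _).symm
    _ ≤ (|1 - t| + |t|) * ‖x‖ := by gcongr
    _ = |1 - t| * (1 * ‖x‖) + |t| * ‖x‖ := by ring
    _ ≤ |1 - t| * (kap L * ‖x‖) + |t| * (kap L * ‖L x‖) := by gcongr
    _ = _ := by ring

lemma pathMap_ge' (L : X ≃L[ℝ] Y) (t : ℝ) (x : X) : ‖L x‖ ≤ kap L * ‖pathMap L t x‖ := by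
  rw [pathMap_norm]
  have h1 := one_le_weights t
  have h2 := norm_L_le L x
  have h3 := one_le_kap L
  have h4 := norm_nonneg (L x)
  have h5 := abs_nonneg (1 - t)
  have h6 := abs_nonneg t
  calc ‖L x‖ = 1 * ‖L x‖ := (one_mul _).symm
    _ ≤ (|1 - t| + |t|) * ‖L x‖ := by gcongr
    _ = |1 - t| * ‖L x‖ + |t| * (1 * ‖L x‖) := by ring
    _ ≤ |1 - t| * (kap L * ‖x‖) + |t| * (kap L * ‖L x‖) := by gcongr
    _ = _ := by ring

lemma pathMap_le (L : X ≃L[ℝ] Y) (t : ℝ) (x : X) :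
    ‖pathMap L t x‖ ≤ (|1 - t| + |t| * kap L) * ‖x‖ := by
  rw [pathMap_norm]
  have h2 := norm_L_le L x
  calc |1 - t| * ‖x‖ + |t| * ‖L x‖ ≤ |1 - t| * ‖x‖ + |t| * (kap L * ‖x‖) := by gcongr
    _ = _ := by ring

lemma pathMap_inj (L : X ≃L[ℝ] Y) (t : ℝ) :
    Function.Injective ((pathMap L t).comp (toX L t).toLinearMap) := by
  rw [← LinearMap.ker_eq_bot, LinearMap.ker_eq_bot']
  intro x hx
  have h := pathMap_ge L t (toX L t x)
  have h2 : pathMap L t (toX L t x) = 0 := hx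
  rw [h2, norm_zero, mul_zero] at h
  have h3 : toX L t x = 0 := norm_le_zero_iff.1 h
  exact (toX L t).map_eq_zero_iff.1 h3

noncomputable instance (L : X ≃L[ℝ] Y) (t : ℝ) : NormedAddCommGroup (Vt L t) :=
  NormedAddCommGroup.induced (Vt L t) _ ((pathMap L t).comp (toX L t).toLinearMap)
    (pathMap_inj L t)

noncomputable instance (L : X ≃L[ℝ] Y) (t : ℝ) : NormedSpace ℝ (Vt L t) :=
  NormedSpace.induced ℝ (Vt L t) _ ((pathMap L t).comp (toX L t).toLinearMap)

lemma Vt_norm (L : X ≃L[ℝ] Y) (t : ℝ) (x : Vt L t) :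
    ‖x‖ = |1 - t| * ‖toX L t x‖ + |t| * ‖L (toX L t x)‖ :=
  pathMap_norm L t (toX L t x)

lemma Vt_complete [CompleteSpace X] (L : X ≃L[ℝ] Y) (t : ℝ) : CompleteSpace (Vt L t) := by
  have h2 : ∀ y, ‖(toX L t).symm y‖ ≤ (|1 - t| + |t| * kap L) * ‖y‖ := fun y => pathMap_le L t y
  have h1 : ∀ x, ‖toX L t x‖ ≤ kap L * ‖x‖ := fun x => pathMap_ge L t (toX L t x)
  let E : Vt L t ≃L[ℝ] X :=
    (toX L t).toContinuousLinearEquivOfBounds (kap L) (|1 - t| + |t| * kap L) h1 h2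
  exact (completeSpace_congr (e := E.toEquiv) E.isUniformEmbedding).2 inferInstance

/-- the isometric embedding of `Vt L t` -/
noncomputable def isoMap (L : X ≃L[ℝ] Y) (t : ℝ) : Vt L t →ₗᵢ[ℝ] WithLp 1 (X × Y) :=
  ⟨(pathMap L t).comp (toX L t).toLinearMap, fun _ => rfl⟩

/-- Every norm-one functional that attains its norm splits into two norming functionals. -/
lemma split_functional (L : X ≃L[ℝ] Y) (t : ℝ) (x : Vt L t) (f : Vt L t →L[ℝ] ℝ) (hx : ‖x‖ = 1)
    (hf : ‖f‖ = 1) (hfx : f x = 1) :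
    ∃ (g₀ : X →L[ℝ] ℝ) (g₁ : Y →L[ℝ] ℝ),
      ‖g₀‖ ≤ 1 ∧ ‖g₁‖ ≤ 1 ∧ g₀ (toX L t x) = ‖toX L t x‖ ∧
      g₁ (L (toX L t x)) = ‖L (toX L t x)‖ ∧
      ∀ u, f u = |1 - t| * g₀ (toX L t u) + |t| * g₁ (L (toX L t u)) := by
  obtain ⟨F, hF, hFn⟩ := exists_extension_norm_eq (LinearMap.range (isoMap L t).toLinearMap)
    (f.comp ((isoMap L t).equivRange.symm.toContinuousLinearEquiv :
      LinearMap.range (isoMap L t).toLinearMap →L[ℝ] Vt L t))
  have hF1 : ‖F‖ ≤ 1 := by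
    rw [hFn]
    apply ContinuousLinearMap.opNorm_le_bound _ zero_le_one
    intro y
    rw [one_mul]
    calc ‖f ((isoMap L t).equivRange.symm y)‖ ≤ ‖f‖ * ‖(isoMap L t).equivRange.symm y‖ :=
          f.le_opNorm _
      _ = ‖y‖ := by rw [hf, one_mul, LinearIsometryEquiv.norm_map]
  have hFu : ∀ u, F (isoMap L t u) = f u := by
    intro u
    have h1 := hF ((isoMap L t).equivRange u)
    have h2 : (((isoMap L t).equivRange u : LinearMap.range (isoMap L t).toLinearMap) :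
      WithLp 1 (X × Y)) = isoMap L t u := rfl
    rw [h2] at h1
    rw [h1]
    change f ((isoMap L t).equivRange.symm ((isoMap L t).equivRange u)) = f u
    rw [LinearIsometryEquiv.symm_apply_apply]
  -- the two coordinates of `F`
  let g₀ : X →L[ℝ] ℝ :=
    LinearMap.mkContinuous
      { toFun := fun y => F (WithLp.toLp 1 (y, 0))
        map_add' := fun y z => by
          rw [← map_add, ← WithLp.toLp_add]
          congr 2
          exact Prod.ext rfl (add_zero (0 : Y)).symm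
        map_smul' := fun c y => by
          rw [RingHom.id_apply, ← map_smul, ← WithLp.toLp_smul]
          congr 2
          exact Prod.ext rfl (smul_zero (A := Y) c).symm } 1 (by
      intro y
      have h1 : ‖WithLp.toLp 1 ((y, 0) : X × Y)‖ = ‖y‖ := by
        rw [WithLp.prod_norm_eq_of_L1]
        change ‖y‖ + ‖(0 : Y)‖ = ‖y‖
        rw [norm_zero, add_zero]
      calc ‖F (WithLp.toLp 1 (y, 0))‖ ≤ ‖F‖ * ‖WithLp.toLp 1 ((y, 0) : X × Y)‖ := F.le_opNorm _
        _ ≤ 1 * ‖y‖ := by rw [h1]; gcongr)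
  let g₁ : Y →L[ℝ] ℝ :=
    LinearMap.mkContinuous
      { toFun := fun y => F (WithLp.toLp 1 (0, y))
        map_add' := fun y z => by
          rw [← map_add, ← WithLp.toLp_add]
          congr 2
          exact Prod.ext (add_zero _).symm rfl
        map_smul' := fun c y => by
          rw [RingHom.id_apply, ← map_smul, ← WithLp.toLp_smul]
          congr 2
          exact Prod.ext (smul_zero (A := X) c).symm rfl } 1 (by
      intro y
      have h1 : ‖WithLp.toLp 1 ((0, y) : X × Y)‖ = ‖y‖ := by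
        rw [WithLp.prod_norm_eq_of_L1]
        change ‖(0 : X)‖ + ‖y‖ = ‖y‖
        rw [norm_zero, zero_add]
      calc ‖F (WithLp.toLp 1 (0, y))‖ ≤ ‖F‖ * ‖WithLp.toLp 1 ((0, y) : X × Y)‖ := F.le_opNorm _
        _ ≤ 1 * ‖y‖ := by rw [h1]; gcongr)
  have hg₀ : ∀ y, g₀ y = F (WithLp.toLp 1 (y, 0)) := fun _ => rfl
  have hg₁ : ∀ y, g₁ y = F (WithLp.toLp 1 (0, y)) := fun _ => rfl
  have hg₀n : ‖g₀‖ ≤ 1 := LinearMap.mkContinuous_norm_le _ zero_le_one _
  have hg₁n : ‖g₁‖ ≤ 1 := LinearMap.mkContinuous_norm_le _ zero_le_one _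
  have hdec : ∀ u, f u = |1 - t| * g₀ (toX L t u) + |t| * g₁ (L (toX L t u)) := by
    intro u
    have e1 : |1 - t| * g₀ (toX L t u) = F (WithLp.toLp 1 (|1 - t| • toX L t u, 0)) := by
      rw [← hg₀, g₀.map_smul, smul_eq_mul]
    have e2 : |t| * g₁ (L (toX L t u)) = F (WithLp.toLp 1 (0, |t| • L (toX L t u))) := by
      rw [← hg₁, g₁.map_smul, smul_eq_mul]
    rw [← hFu u, e1, e2, ← map_add, ← WithLp.toLp_add]
    congr 1
    change WithLp.toLp 1 (|1 - t| • toX L t u, |t| • L (toX L t u)) = _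
    congr 1
    refine Prod.ext ?_ ?_
    · exact (add_zero _).symm
    · exact (zero_add _).symm
  -- both coordinates are norming at `x`
  have hxn := Vt_norm L t x
  rw [hx] at hxn
  have hx1 := hdec x
  rw [hfx] at hx1
  have hb0 : g₀ (toX L t x) ≤ ‖toX L t x‖ := by
    calc _ ≤ ‖g₀ (toX L t x)‖ := Real.le_norm_self _
      _ ≤ ‖g₀‖ * ‖toX L t x‖ := g₀.le_opNorm _
      _ ≤ 1 * ‖toX L t x‖ := by gcongr
      _ = _ := one_mul _
  have hb1 : g₁ (L (toX L t x)) ≤ ‖L (toX L t x)‖ := by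
    calc _ ≤ ‖g₁ (L (toX L t x))‖ := Real.le_norm_self _
      _ ≤ ‖g₁‖ * ‖L (toX L t x)‖ := g₁.le_opNorm _
      _ ≤ 1 * ‖L (toX L t x)‖ := by gcongr
      _ = _ := one_mul _
  have hm0 := mul_le_mul_of_nonneg_left hb0 (abs_nonneg (1 - t))
  have hm1 := mul_le_mul_of_nonneg_left hb1 (abs_nonneg t)
  have hs0 : |1 - t| * g₀ (toX L t x) = |1 - t| * ‖toX L t x‖ := by linarith
  have hs1 : |t| * g₁ (L (toX L t x)) = |t| * ‖L (toX L t x)‖ := by linarith
  -- correct the coordinates with zero weight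
  obtain ⟨G₀, hG₀n, hG₀x, hG₀⟩ : ∃ G₀ : X →L[ℝ] ℝ,
      ‖G₀‖ ≤ 1 ∧ G₀ (toX L t x) = ‖toX L t x‖ ∧ ∀ y, |1 - t| * g₀ y = |1 - t| * G₀ y := by
    by_cases hc : |1 - t| = 0
    · obtain ⟨G, hG, hGx⟩ := exists_dual_vector'' ℝ (toX L t x)
      exact ⟨G, hG, hGx, fun y => by rw [hc]; simp⟩
    · exact ⟨g₀, hg₀n, mul_left_cancel₀ hc hs0, fun y => rfl⟩
  obtain ⟨G₁, hG₁n, hG₁x, hG₁⟩ : ∃ G₁ : Y →L[ℝ] ℝ,
      ‖G₁‖ ≤ 1 ∧ G₁ (L (toX L t x)) = ‖L (toX L t x)‖ ∧ ∀ y, |t| * g₁ y = |t| * G₁ y := by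
    by_cases hc : |t| = 0
    · obtain ⟨G, hG, hGx⟩ := exists_dual_vector'' ℝ (L (toX L t x))
      exact ⟨G, hG, hGx, fun y => by rw [hc]; simp⟩
    · exact ⟨g₁, hg₁n, mul_left_cancel₀ hc hs1, fun y => rfl⟩
  exact ⟨G₀, G₁, hG₀n, hG₁n, hG₀x, hG₁x, fun u => by rw [hdec u, hG₀, hG₁]⟩

/-- distance between the parameters -/
noncomputable def dpar (L : X ≃L[ℝ] Y) (t t' : ℝ) : ℝ :=
  kap L * (|(|1 - t| - |1 - t'|)| + |(|t| - |t'|)|)

lemma dpar_nonneg (L : X ≃L[ℝ] Y) (t t' : ℝ) : 0 ≤ dpar L t t' := by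
  have := one_le_kap L
  unfold dpar
  positivity

lemma dpar_comm (L : X ≃L[ℝ] Y) (t t' : ℝ) : dpar L t t' = dpar L t' t := by
  unfold dpar
  rw [abs_sub_comm |1 - t|, abs_sub_comm |t|]

lemma weights_diff (L : X ≃L[ℝ] Y) (t t' η : ℝ) (u : X) :
    |(|1 - t| - |1 - t'|)| * ‖u‖ + |(|t| - |t'|)| * ‖L u‖ ≤ dpar L t t' * ‖pathMap L η u‖ := by
  have h1 := pathMap_ge L η u
  have h2 := pathMap_ge' L η u
  calc _ ≤ |(|1 - t| - |1 - t'|)| * (kap L * ‖pathMap L η u‖) +
      |(|t| - |t'|)| * (kap L * ‖pathMap L η u‖) := by gcongr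
    _ = _ := by unfold dpar; ring

/-- The index changes continuously along the path. -/
lemma index_path_le [Nontrivial X] (L : X ≃L[ℝ] Y) {k : ℕ} (hk : k ≠ 0) (t t' : ℝ) :
    polyIndex k (Vt L t) ≤ (1 + dpar L t t') ^ (2 * k + 1) * polyIndex k (Vt L t')
      + dpar L t t' * (1 + dpar L t t') ^ (2 * k + 2) := by
  have hcomp : ∀ η η' : ℝ, ∀ u : X, ‖pathMap L η u‖ ≤
      (1 + dpar L η η') * ‖pathMap L η' u‖ := by
    intro η η' u
    have h := weights_diff L η η' η' u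
    have h1 := pathMap_norm L η u
    have h2 := pathMap_norm L η' u
    have h3 : (|1 - η| - |1 - η'|) * ‖u‖ ≤ |(|1 - η| - |1 - η'|)| * ‖u‖ := by
      gcongr
      exact le_abs_self _
    have h4 : (|η| - |η'|) * ‖L u‖ ≤ |(|η| - |η'|)| * ‖L u‖ := by
      gcongr
      exact le_abs_self _
    nlinarith
  refine index_compare hk ((toX L t).trans (toX L t').symm) (dpar L t t') (dpar_nonneg L t t')
    ?_ ?_ ?_
  · intro x
    have := hcomp t' t (toX L t x)
    rw [dpar_comm] at this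
    exact this
  · intro x
    exact hcomp t t' (toX L t x)
  · intro x f hx hf hfx
    obtain ⟨g₀, g₁, h0n, h1n, h0x, h1x, hfu⟩ := split_functional L t x f hx hf hfx
    let gl : Vt L t' →ₗ[ℝ] ℝ :=
      |1 - t'| • (g₀.toLinearMap ∘ₗ (toX L t').toLinearMap) +
      |t'| • (g₁.toLinearMap ∘ₗ (L : X →L[ℝ] Y).toLinearMap ∘ₗ (toX L t').toLinearMap)
    have hgl : ∀ u, gl u = |1 - t'| * g₀ (toX L t' u) + |t'| * g₁ (L (toX L t' u)) := fun _ => rfl
    have hgb : ∀ u, ‖gl u‖ ≤ 1 * ‖u‖ := by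
      intro u
      rw [hgl, one_mul, Vt_norm]
      calc _ ≤ ‖|1 - t'| * g₀ (toX L t' u)‖ + ‖|t'| * g₁ (L (toX L t' u))‖ := norm_add_le _ _
        _ = |1 - t'| * ‖g₀ (toX L t' u)‖ + |t'| * ‖g₁ (L (toX L t' u))‖ := by
          rw [norm_mul, norm_mul, Real.norm_eq_abs, Real.norm_eq_abs |t'|, abs_abs, abs_abs]
        _ ≤ |1 - t'| * (1 * ‖toX L t' u‖) + |t'| * (1 * ‖L (toX L t' u)‖) := by
          gcongr
          · exact (g₀.le_opNorm _).trans (by gcongr)
          · exact (g₁.le_opNorm _).trans (by gcongr)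
        _ = _ := by rw [one_mul, one_mul]
    refine ⟨gl.mkContinuous 1 hgb, LinearMap.mkContinuous_norm_le _ zero_le_one _, ?_, ?_⟩
    · rw [LinearMap.mkContinuous_apply, hgl, Vt_norm]
      change |1 - t'| * g₀ (toX L t x) + |t'| * g₁ (L (toX L t x)) = _
      rw [h0x, h1x]
      rfl
    · intro u
      rw [LinearMap.mkContinuous_apply, hgl, hfu]
      change ‖|1 - t'| * g₀ (toX L t u) + |t'| * g₁ (L (toX L t u)) - (|1 - t| *
        g₀ (toX L t u) + |t| * g₁ (L (toX L t u)))‖ ≤ _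
      have e1 : |1 - t'| * g₀ (toX L t u) + |t'| * g₁ (L (toX L t u)) - (|1 - t| *
        g₀ (toX L t u) + |t| * g₁ (L (toX L t u))) =
        (|1 - t'| - |1 - t|) * g₀ (toX L t u) + (|t'| - |t|) * g₁ (L (toX L t u)) := by
        ring
      rw [e1]
      calc _ ≤ ‖(|1 - t'| - |1 - t|) * g₀ (toX L t u)‖ +
            ‖(|t'| - |t|) * g₁ (L (toX L t u))‖ := norm_add_le _ _
        _ = |(|1 - t'| - |1 - t|)| * ‖g₀ (toX L t u)‖ +
            |(|t'| - |t|)| * ‖g₁ (L (toX L t u))‖ := by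
          rw [norm_mul, norm_mul, Real.norm_eq_abs (|1 - t'| - |1 - t|),
            Real.norm_eq_abs (|t'| - |t|)]
        _ ≤ |(|1 - t'| - |1 - t|)| * (1 * ‖toX L t u‖) +
            |(|t'| - |t|)| * (1 * ‖L (toX L t u)‖) := by
          gcongr
          · exact (g₀.le_opNorm _).trans (by gcongr)
          · exact (g₁.le_opNorm _).trans (by gcongr)
        _ = |(|1 - t'| - |1 - t|)| * ‖toX L t u‖ +
            |(|t'| - |t|)| * ‖L (toX L t u)‖ := by rw [one_mul, one_mul]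
        _ ≤ dpar L t' t * ‖pathMap L t (toX L t u)‖ := weights_diff L t' t t _
        _ = dpar L t t' * ‖u‖ := by rw [dpar_comm]; rfl

lemma dpar_tendsto (L : X ≃L[ℝ] Y) (t : ℝ) :
    Filter.Tendsto (fun t' => dpar L t t') (nhds t) (nhds 0) := by
  have hc : Continuous (fun t' => dpar L t t') := by
    unfold dpar
    fun_prop
  have h0 : dpar L t t = 0 := by unfold dpar; simp
  have := hc.tendsto t
  rwa [h0] at this

/-- continuity of the index along the path -/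
lemma index_path_continuous [Nontrivial X] (L : X ≃L[ℝ] Y) {k : ℕ} (hk : k ≠ 0) :
    Continuous (fun t => polyIndex k (Vt L t)) := by
  rw [continuous_iff_continuousAt]
  intro t
  set φ : ℝ → ℝ := fun t => polyIndex k (Vt L t) with hφ
  have hd := dpar_tendsto L t
  set p := 2 * k + 1 with hp
  set q := 2 * k + 2 with hq
  -- lower and upper functions
  have hup : ∀ t', φ t' ≤ (1 + dpar L t t') ^ p * φ t + dpar L t t' * (1 + dpar L t t') ^ q := by
    intro t'
    have := index_path_le L hk t' t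
    rw [dpar_comm L t' t] at this
    exact this
  have hlow : ∀ t', (φ t - dpar L t t' * (1 + dpar L t t') ^ q) / (1 + dpar L t t') ^ p ≤
      φ t' := by
    intro t'
    have h1 := index_path_le L hk t t'
    have h2 := dpar_nonneg L t t'
    rw [div_le_iff₀ (by positivity)]
    have : φ t ≤ (1 + dpar L t t') ^ p * φ t' + dpar L t t' * (1 + dpar L t t') ^ q := h1
    linarith
  have hcu : Continuous (fun d : ℝ => (1 + d) ^ p * φ t + d * (1 + d) ^ q) := by fun_prop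
  have hlu : Filter.Tendsto (fun t' => (1 + dpar L t t') ^ p * φ t +
      dpar L t t' * (1 + dpar L t t') ^ q) (nhds t) (nhds (φ t)) := by
    have := (hcu.tendsto 0).comp hd
    simpa [Function.comp_def] using this
  have hll : Filter.Tendsto (fun t' => (φ t - dpar L t t' * (1 + dpar L t t') ^ q) /
      (1 + dpar L t t') ^ p) (nhds t) (nhds (φ t)) := by
    have hnum : Filter.Tendsto (fun t' => φ t - dpar L t t' * (1 + dpar L t t') ^ q) (nhds t)
        (nhds (φ t)) := by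
      have hc : Continuous (fun d : ℝ => φ t - d * (1 + d) ^ q) := by fun_prop
      have := (hc.tendsto 0).comp hd
      simpa [Function.comp_def] using this
    have hden : Filter.Tendsto (fun t' => (1 + dpar L t t') ^ p) (nhds t) (nhds 1) := by
      have hc : Continuous (fun d : ℝ => (1 + d) ^ p) := by fun_prop
      have := (hc.tendsto 0).comp hd
      simpa [Function.comp_def] using this
    have h := hnum.div hden one_ne_zero
    rw [div_one] at h
    exact h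
  exact tendsto_of_tendsto_of_tendsto_of_le_of_le hll hlu hlow hup

/-- isometric spaces have the same index -/
lemma index_iso_le [Nontrivial Y] {k : ℕ} (hk : k ≠ 0) (e : X ≃ₗ[ℝ] Y)
    (he : ∀ x, ‖e x‖ = ‖x‖) : polyIndex k X ≤ polyIndex k Y := by
  have h := index_compare hk e 0 le_rfl (fun x => by rw [he]; simp) (fun x => by rw [he]; simp)
    (by
      intro x f hx hf hfx
      have hb : ∀ y, ‖(f.toLinearMap ∘ₗ e.symm.toLinearMap) y‖ ≤ 1 * ‖y‖ := by
        intro y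
        have h1 := f.le_opNorm (e.symm y)
        rw [hf] at h1
        have h2 : ‖e.symm y‖ = ‖y‖ := by
          have := he (e.symm y)
          rw [LinearEquiv.apply_symm_apply] at this
          exact this.symm
        rw [h2] at h1
        exact h1
      refine ⟨(f.toLinearMap ∘ₗ e.symm.toLinearMap).mkContinuous 1 hb,
        LinearMap.mkContinuous_norm_le _ zero_le_one _, ?_, ?_⟩
      · rw [LinearMap.mkContinuous_apply, he, hx]
        change f (e.symm (e x)) = 1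
        rw [LinearEquiv.symm_apply_apply, hfx]
      · intro u
        rw [LinearMap.mkContinuous_apply]
        change ‖f (e.symm (e u)) - f u‖ ≤ _
        rw [LinearEquiv.symm_apply_apply, sub_self]
        simp)
  simpa using h

end path

theorem main : S_PATH := by
  intro k hk X Y _ _ _ _ _ _ _ _ L r h1 h2
  have hc := index_path_continuous L hk
  have e0 : ∀ x, ‖toX L 0 x‖ = ‖x‖ := by
    intro x
    rw [Vt_norm]
    simp
  have e1 : ∀ x, ‖((toX L 1).trans L.toLinearEquiv) x‖ = ‖x‖ := by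
    intro x
    rw [Vt_norm]
    simp
  have h3 : polyIndex k X ≤ polyIndex k (Vt L 0) := by
    apply index_iso_le hk (toX L 0).symm
    intro x
    have := e0 ((toX L 0).symm x)
    rw [LinearEquiv.apply_symm_apply] at this
    exact this.symm
  have h4 : polyIndex k (Vt L 1) ≤ polyIndex k Y :=
    index_iso_le hk ((toX L 1).trans L.toLinearEquiv) e1
  obtain ⟨t, ht⟩ := mem_range_of_exists_le_of_exists_ge hc ⟨1, h4.trans h1⟩ ⟨0, h2.trans h3⟩
  exact ⟨Vt L t, inferInstance, inferInstance, Vt_complete L t, inferInstance, ht.symm⟩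

end Pool.Agent.W15.PN
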